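import Mathlib
import Pool.Agent.H55.SunMain

/-!
# Sun's supercongruence for `∑ (-3)^{-k} T_k(3,3) M_k(3,3)`

The proof uses the exact evaluation `2 (-3)^n S(n) = n (T_n² - T_{n+1} T_{n-1})`, the expansions of
`T_p(3,3)` and `T_{p-1}(3,3)` modulo `p³` in `ℤ/p³[w]`, `w² + w + 1 = 0`, coming from
`T_n = (-(1+2w))^n ∑ C(n,k) C(n+k,k) w^k = ∑ C(n,k)² (2+w)^k (1-w)^{n-k}`, and the comparison of
the two expansions for `n = p`.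
-/

set_option autoImplicit false

namespace Pool.Agent.Results.MP_fcf7f4_nt.SunTM33

/-- `T_n(b,c) = ∑_{j ≤ n/2} C(n,2j) C(2j,j) b^{n-2j} c^j`. -/
def T (b c : ℤ) (n : ℕ) : ℤ :=
  ∑ j ∈ Finset.range (n / 2 + 1),
    (n.choose (2 * j) : ℤ) * ((2 * j).choose j : ℤ) * b ^ (n - 2 * j) * c ^ j

/-- `M_n(b,c) = ∑_{j ≤ n/2} C(n,2j) Cat_j b^{n-2j} c^j`, `Cat_j` the Catalan numbers. -/
def M (b c : ℤ) (n : ℕ) : ℤ :=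
  ∑ j ∈ Finset.range (n / 2 + 1),
    (n.choose (2 * j) : ℤ) * (catalan j : ℤ) * b ^ (n - 2 * j) * c ^ j

/-- `S(p) = ∑_{k=0}^{p-1} (-3)^{-k} T_k(3,3) M_k(3,3) ∈ ℚ`. -/
def S (p : ℕ) : ℚ :=
  ∑ k ∈ Finset.range p, ((-3 : ℚ) ^ k)⁻¹ * (T 3 3 k : ℚ) * (M 3 3 k : ℚ)

theorem result (p : ℕ) (hp : p.Prime) (hp3 : 3 < p) :
    (p % 3 = 1 → (p : ℤ) ^ 3 ∣ (S p - 2 * (p : ℚ) ^ 2).num) ∧
      (p % 3 = 2 → (p : ℤ) ^ 4 ∣ (S p - ((p : ℚ) ^ 3 - (p : ℚ) ^ 2 - 3 * (p : ℚ))).num) :=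
  ⟨fun h => Pool.Agent.H55.SunTM.main1 hp hp3 h, fun h => Pool.Agent.H55.SunTM.main2 hp hp3 h⟩

end Pool.Agent.Results.MP_fcf7f4_nt.SunTM33
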